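import Pool.Agent.Lib.MP_1f1fe3_ag.Main

set_option autoImplicit false
open scoped Manifold ContDiff

namespace Pool.Agent.Results.MP_1f1fe3_ag.InfiniteOrder

open Pool.Agent.Lib.MP1f1fe3

theorem Fn_iterate (k : ℕ) (x : X) : (⇑(Fn 1))^[k] x = Fn k x := by
  induction k generalizing x with
  | zero =>
    change x = sh (-(2 * Real.pi * Complex.I * ((0 : ℕ) : ℤ))) x
    simp [sh_zero]
  | succ k ih =>
    rw [Function.iterate_succ_apply, ih]
    change sh (-(2 * Real.pi * Complex.I * ((k : ℕ) : ℤ))) (sh (-(2 * Real.pi * Complex.I * (1 : ℤ))) x) =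
      sh (-(2 * Real.pi * Complex.I * ((k + 1 : ℕ) : ℤ))) x
    rw [sh_sh]
    congr 1
    push_cast
    ring

section Defs

variable (n : ℕ) {M : Type} [TopologicalSpace M] [ChartedSpace (EuclideanSpace ℂ (Fin n)) M]

/-- `g` is biholomorphic (a complex diffeomorphism). -/
def IsBihol (g : M → M) : Prop :=
  ∃ φ : Diffeomorph 𝓘(ℂ, EuclideanSpace ℂ (Fin n)) 𝓘(ℂ, EuclideanSpace ℂ (Fin n)) M M ∞, ⇑φ = g

/-- `g` is a diffeomorphism of the underlying real smooth manifold. -/
def IsRealDiffeo (g : M → M) : Prop :=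
  ∃ φ : Diffeomorph 𝓘(ℝ, EuclideanSpace ℂ (Fin n)) 𝓘(ℝ, EuclideanSpace ℂ (Fin n)) M M ∞, ⇑φ = g

/-- `g` is smoothly isotopic to the identity through diffeomorphisms. -/
def SmoothlyIsotopicToId (g : M → M) : Prop :=
  ∃ H : ℝ → M → M,
    ContMDiff (𝓘(ℝ, ℝ).prod 𝓘(ℝ, EuclideanSpace ℂ (Fin n))) 𝓘(ℝ, EuclideanSpace ℂ (Fin n)) ∞
      (fun p : ℝ × M => H p.1 p.2) ∧
    H 0 = id ∧ H 1 = g ∧ ∀ t : ℝ, IsRealDiffeo n (H t)

variable (M) in
/-- The set of biholomorphisms of `M` smoothly isotopic to the identity, as a set of continuous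
self-maps (the ambient space `C(M, M)` carries the compact-open topology). -/
def AutOne : Set C(M, M) := {g | IsBihol n g ∧ SmoothlyIsotopicToId n g}

end Defs

/-- There is a connected compact complex manifold `M` of dimension `5` with a biholomorphism `F`
which is smoothly isotopic to the identity through diffeomorphisms, such that no two different
iterates of `F` lie in the same connected component of the space of biholomorphisms smoothly
isotopic to the identity. -/
theorem result :
    ∃ (M : Type) (_ : TopologicalSpace M) (_ : ChartedSpace (EuclideanSpace ℂ (Fin 5)) M),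
      IsManifold 𝓘(ℂ, EuclideanSpace ℂ (Fin 5)) ω M ∧
      CompactSpace M ∧ T2Space M ∧ SecondCountableTopology M ∧ ConnectedSpace M ∧
      ∃ F : ℕ → ↥(AutOne 5 M),
        (∀ (k : ℕ) (x : M), (F k).1 x = (⇑(F 1).1)^[k] x) ∧
        ∀ k l : ℕ, k ≠ l → connectedComponent (F k) ≠ connectedComponent (F l) := by
  have hconn : ConnectedSpace X := by
    have h1 : ConnectedSpace U := inferInstance
    exact isQ.surjective.connectedSpace isQ.continuous
  have hA : AutOne 5 X = Aut1 := by
    ext g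
    constructor
    · rintro ⟨⟨φ, hφ⟩, H, h1, h2, h3, h4⟩
      exact ⟨φ, hφ, H, h1, h2, h3, h4⟩
    · rintro ⟨φ, hφ, H, h1, h2, h3, h4⟩
      exact ⟨⟨φ, hφ⟩, H, h1, h2, h3, h4⟩
  refine ⟨X, inferInstance, inferInstance, isManifold_complex ω, inferInstance, inferInstance,
    ChartedSpace.secondCountable_of_sigmaCompact E5 X, hconn, ?_⟩
  rw [hA]
  refine ⟨fun k => ⟨Fn k, Fn_mem k⟩, ?_, ?_⟩
  · intro k x
    exact (Fn_iterate k x).symm
  · intro k l hkl h
    apply hkl
    have h2 := component_injective (a₁ := (k : ℤ)) (a₂ := (l : ℤ))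
      (ConnectedComponents.coe_eq_coe.mpr h)
    exact_mod_cast h2

end Pool.Agent.Results.MP_1f1fe3_ag.InfiniteOrder
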